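import Pool.Agent.Y731.FG.Stm
import Pool.Agent.W603.CZ.Blocks

/-!
# Multiplicative bases of groups of units modulo small functions
-/

set_option autoImplicit false
set_option linter.unusedSectionVars false
set_option linter.unusedVariables false

namespace Pool.Agent.Y664.FG

section grp

/-! The group part is copied from `Pool/Agent/Y742/DI/MBas.lean`. -/

variable {G : Type} [CommGroup G] {N : ℕ}

/-- relations modulo `C` -/
def Rl (u : Fin N → G) (C : Subgroup G) : Submodule ℤ (Fin N → ℤ) where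
  carrier := {lam | ∏ i, u i ^ lam i ∈ C}
  add_mem' := by
    intro a b ha hb
    show ∏ i, u i ^ (a + b) i ∈ C
    have : ∏ i, u i ^ (a + b) i = (∏ i, u i ^ a i) * ∏ i, u i ^ b i := by
      rw [← Finset.prod_mul_distrib]
      exact Finset.prod_congr rfl fun i _ => zpow_add _ _ _
    rw [this]
    exact C.mul_mem ha hb
  zero_mem' := by
    show ∏ i, u i ^ (0 : Fin N → ℤ) i ∈ C
    simp
  smul_mem' := by
    intro c a ha
    show ∏ i, u i ^ (c • a) i ∈ C
    have : ∏ i, u i ^ (c • a) i = (∏ i, u i ^ a i) ^ c := by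
      rw [← Finset.prod_zpow]
      refine Finset.prod_congr rfl fun i _ => ?_
      rw [Pi.smul_apply, smul_eq_mul, mul_comm, zpow_mul]
    rw [this]
    exact C.zpow_mem ha c

theorem mem_Rl (u : Fin N → G) (C : Subgroup G) (lam : Fin N → ℤ) :
    lam ∈ Rl u C ↔ ∏ i, u i ^ lam i ∈ C := Iff.rfl

theorem zpow_sum' {ι : Type} (x : G) (s : Finset ι) (f : ι → ℤ) :
    x ^ (∑ i ∈ s, f i) = ∏ i ∈ s, x ^ f i := by
  classical
  induction s using Finset.induction_on with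
  | empty => simp
  | insert i s hi ih => rw [Finset.sum_insert hi, Finset.prod_insert hi, zpow_add, ih]

theorem prod_sum_zpow {m : ℕ} (u : Fin N → G) (Q : Fin m → Fin N → ℤ) (ν : Fin m → ℤ) :
    ∏ j, (∏ l, u l ^ Q j l) ^ ν j = ∏ l, u l ^ (∑ j, ν j • Q j) l := by
  classical
  have h1 : ∀ l, u l ^ (∑ j, ν j • Q j) l = ∏ j, u l ^ (Q j l * ν j) := by
    intro l
    rw [Finset.sum_apply, zpow_sum']
    refine Finset.prod_congr rfl fun j _ => ?_
    rw [Pi.smul_apply, smul_eq_mul, mul_comm]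
  rw [Finset.prod_congr rfl fun l _ => h1 l, Finset.prod_comm]
  refine Finset.prod_congr rfl fun j _ => ?_
  rw [← Finset.prod_zpow]
  exact Finset.prod_congr rfl fun l _ => (zpow_mul _ _ _).symm

theorem exists_basis (u : Fin N → G) (C : Subgroup G)
    (hC : ∀ (x : G) (n : ℕ), 0 < n → x ^ n ∈ C → x ∈ C) :
    ∃ (m : ℕ) (Q : Fin m → Fin N → ℤ) (M : Fin N → Fin m → ℤ),
      (∀ i, u i / ∏ j, (∏ l, u l ^ Q j l) ^ M i j ∈ C) ∧
      (∀ ν : Fin m → ℤ, ∏ j, (∏ l, u l ^ Q j l) ^ ν j ∈ C → ν = 0) := by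
  classical
  have htf : Module.IsTorsionFree ℤ ((Fin N → ℤ) ⧸ Rl u C) := by
    rw [Module.isTorsionFree_int_iff_isAddTorsionFree]
    constructor
    intro n hn a b hab
    obtain ⟨a, rfl⟩ := Submodule.Quotient.mk_surjective _ a
    obtain ⟨b, rfl⟩ := Submodule.Quotient.mk_surjective _ b
    rw [Submodule.Quotient.eq, mem_Rl]
    have h1 : (Submodule.Quotient.mk (n • (a - b)) : (Fin N → ℤ) ⧸ Rl u C) = 0 := by
      have h2 : n • (Submodule.Quotient.mk a : (Fin N → ℤ) ⧸ Rl u C) =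
        n • (Submodule.Quotient.mk b : (Fin N → ℤ) ⧸ Rl u C) := hab
      rw [Submodule.Quotient.mk_smul, Submodule.Quotient.mk_sub, smul_sub, h2, sub_self]
    rw [Submodule.Quotient.mk_eq_zero, mem_Rl] at h1
    refine hC _ n (Nat.pos_of_ne_zero hn) ?_
    rw [← Finset.prod_pow]
    refine Eq.subst (motive := fun x => x ∈ C) ?_ h1
    refine Finset.prod_congr rfl fun i _ => ?_
    rw [Pi.smul_apply, ← zpow_natCast (u i ^ (a - b) i) n, ← zpow_mul, nsmul_eq_mul, mul_comm]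
  let bb := Module.finBasis ℤ ((Fin N → ℤ) ⧸ Rl u C)
  choose Q hQ using fun j => Submodule.Quotient.mk_surjective (Rl u C) (bb j)
  refine ⟨Module.finrank ℤ ((Fin N → ℤ) ⧸ Rl u C), Q,
    fun i j => bb.repr (Submodule.Quotient.mk (Pi.single i 1)) j, ?_, ?_⟩
  · intro i
    rw [prod_sum_zpow]
    have h1 : (Pi.single i 1 - ∑ j, (bb.repr (Submodule.Quotient.mk (Pi.single i 1)) j) • Q j) ∈
        Rl u C := by
      rw [← Submodule.Quotient.eq]
      have h2 : (Submodule.Quotient.mk (∑ j, (bb.repr (Submodule.Quotient.mk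
          (Pi.single i 1)) j) • Q j) : (Fin N → ℤ) ⧸ Rl u C) =
          ∑ j, (bb.repr (Submodule.Quotient.mk (Pi.single i 1)) j) • bb j := by
        have h3 := map_sum (Rl u C).mkQ (fun j => (bb.repr (Submodule.Quotient.mk
          (Pi.single i 1)) j) • Q j) Finset.univ
        rw [Submodule.mkQ_apply] at h3
        rw [h3]
        refine Finset.sum_congr rfl fun j _ => ?_
        rw [map_smul, Submodule.mkQ_apply, hQ]
      rw [h2]
      exact (bb.sum_repr _).symm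
    rw [mem_Rl] at h1
    refine Eq.subst (motive := fun x => x ∈ C) ?_ h1
    rw [Finset.prod_congr rfl fun l _ => by rw [Pi.sub_apply, zpow_sub, ← div_eq_mul_inv],
      Finset.prod_div_distrib]
    congr 1
    rw [Finset.prod_eq_single i]
    · rw [Pi.single_eq_same, zpow_one]
    · intro l _ hl
      rw [Pi.single_eq_of_ne hl, zpow_zero]
    · intro h
      exact absurd (Finset.mem_univ _) h
  · intro ν hν
    rw [prod_sum_zpow, ← mem_Rl, ← Submodule.Quotient.mk_eq_zero] at hν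
    have h2 : (Submodule.Quotient.mk (∑ j, ν j • Q j) : (Fin N → ℤ) ⧸ Rl u C) =
        ∑ j, ν j • bb j := by
      have h3 := map_sum (Rl u C).mkQ (fun j => ν j • Q j) Finset.univ
      rw [Submodule.mkQ_apply] at h3
      rw [h3]
      refine Finset.sum_congr rfl fun j _ => ?_
      rw [map_smul, Submodule.mkQ_apply, hQ]
    rw [h2] at hν
    funext j
    exact Fintype.linearIndependent_iff.1 bb.linearIndependent ν hν j

end grp

open FF Filter Pool.Agent.W603.LV Pool.Agent.W603.PV Pool.Agent.W603.CZ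
open Pool.Agent.Y731.FG

variable {I : Type} {𝒰 : Ultrafilter I} {k F : Type} [Field k] [IsAlgClosed k] [CharZero k]
  [Field F] {L : I → Type} [∀ i, Field (L i)] [∀ i, Algebra k (L i)] [∀ i, Algebra F (L i)]
  [∀ i, IsFF k (L i)] (Δ : Dt 𝒰 k F L)

theorem lu_one : LU Δ (1 : UL 𝒰 L) := by
  refine ⟨one_ne_zero, (Bd.zero Δ.nonneg).mono ?_⟩
  filter_upwards [oo_one (𝒰 := 𝒰) (k := k) (L := L)] with ω h1
  rw [if_pos h1]

theorem lu_mul {x y : UL 𝒰 L} (hx : LU Δ x) (hy : LU Δ y) : LU Δ (x * y) := by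
  refine ⟨mul_ne_zero hx.1 hy.1, (hx.2.add hy.2).mono ?_⟩
  filter_upwards [oo_mul (k := k) hx.1 hy.1] with ω h1
  rw [h1]
  split_ifs <;> omega

theorem lu_inv {x : UL 𝒰 L} (hx : LU Δ x) : LU Δ x⁻¹ := by
  refine ⟨inv_ne_zero hx.1, hx.2.mono ?_⟩
  filter_upwards [oo_inv (k := k) x] with ω h1
  rw [h1]
  split_ifs <;> omega

/-- the group of units outside few places -/
def luG : Subgroup (UL 𝒰 L)ˣ where
  carrier := {x | LU Δ (x : UL 𝒰 L)}
  mul_mem' := by
    intro a b ha hb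
    show LU Δ ((a * b : (UL 𝒰 L)ˣ) : UL 𝒰 L)
    rw [Units.val_mul]
    exact lu_mul Δ ha hb
  one_mem' := by
    show LU Δ ((1 : (UL 𝒰 L)ˣ) : UL 𝒰 L)
    rw [Units.val_one]
    exact lu_one Δ
  inv_mem' := by
    intro a ha
    show LU Δ ((a⁻¹ : (UL 𝒰 L)ˣ) : UL 𝒰 L)
    rw [Units.val_inv_eq_inv_val]
    exact lu_inv Δ ha

/-- the units of the small field -/
def eG : Subgroup (UL 𝒰 L)ˣ where
  carrier := {x | (x : UL 𝒰 L) ∈ Δ.E}
  mul_mem' := by
    intro a b ha hb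
    show ((a * b : (UL 𝒰 L)ˣ) : UL 𝒰 L) ∈ Δ.E
    rw [Units.val_mul]
    exact mul_mem ha hb
  one_mem' := by
    show ((1 : (UL 𝒰 L)ˣ) : UL 𝒰 L) ∈ Δ.E
    rw [Units.val_one]
    exact one_mem _
  inv_mem' := by
    intro a ha
    show ((a⁻¹ : (UL 𝒰 L)ˣ) : UL 𝒰 L) ∈ Δ.E
    rw [Units.val_inv_eq_inv_val]
    exact inv_mem ha

/-- the places where some `u j` is not a unit -/
noncomputable def Ss {t : ℕ} (u : Fin t → UL 𝒰 L) (i : I) : Finset (Place k (L i)) := by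
  classical
  exact Finset.univ.biUnion fun j => (finite_support (k := k) (rep (u j) i)).toFinset

theorem mem_Ss {t : ℕ} (u : Fin t → UL 𝒰 L) (i : I) (P : Place k (L i)) :
    P ∈ Ss u i ↔ ∃ j, P.ord (rep (u j) i) ≠ 0 := by
  classical
  unfold Ss
  rw [Finset.mem_biUnion]
  simp

theorem bound {t : ℕ} (u : Fin t → UL 𝒰 L) (hu : ∀ j, LU Δ (u j)) :
    ∃ B0 : ℕ, ∀ᶠ i in (𝒰 : Filter I),
      max (canDeg k (L i) + (Ss (k := k) u i).card) 0 ≤ B0 * Δ.χ i := by
  classical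
  obtain ⟨B1, hB1⟩ := Δ.vo_bd
  obtain ⟨B2, hB2⟩ := Bd.sum Δ.nonneg (Finset.univ : Finset (Fin t)) fun j _ => (hu j).2
  refine ⟨B1 + B2, ?_⟩
  filter_upwards [hB1, hB2, Δ.D_ne, Δ.one_le] with i h1 h2 h3 h4
  have h5 := canDeg_finset h3 (vo_finite h3).toFinset (fun P hP => by simpa using hP)
  have h6 := h1 (vo_finite h3).toFinset
  have h7 : canDeg k (L i) ≤ B1 * Δ.χ i := by
    refine le_trans ?_ h6
    rw [← neg_neg (canDeg k (L i)), ← h5, ← Finset.sum_neg_distrib]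
    exact Finset.sum_le_sum fun P _ => neg_le_abs _
  have h8 : ((Ss (k := k) u i).card : ℤ) ≤ B2 * Δ.χ i := by
    refine le_trans ?_ (h2 (Ss u i))
    rw [Finset.card_eq_sum_ones]
    push_cast
    refine Finset.sum_le_sum fun P hP => ?_
    obtain ⟨j, hj⟩ := (mem_Ss u i P).1 hP
    refine le_trans (le_of_eq ?_) (Finset.single_le_sum (f := fun j =>
      if oo (u j) (⟨i, P⟩ : Om k L) = 0 then (0 : ℤ) else 1) (fun j _ => by
        split_ifs <;> norm_num) (Finset.mem_univ j))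
    rw [if_neg (show ¬ oo (u j) (⟨i, P⟩ : Om k L) = 0 from hj)]
  have h9 : (0 : ℤ) ≤ B1 * Δ.χ i := by positivity
  have h10 : (0 : ℤ) ≤ B2 * Δ.χ i := by positivity
  push_cast
  rw [add_mul]
  apply max_le <;> linarith

theorem oo_mon {t : ℕ} (u : Fin t → UL 𝒰 L) (hu : ∀ j, u j ≠ 0) (s : Fin t →₀ ℕ) :
    ∀ᶠ ω in EV 𝒰 k L, oo (mon u s) ω = ∑ j, (s j : ℤ) * oo (u j) ω := by
  have h1 : ∀ᶠ ω in EV 𝒰 k L, ∀ j, oo (u j ^ s j) ω = s j * oo (u j) ω :=
    eventually_all.2 fun j => oo_pow (u j) (s j)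
  filter_upwards [h1, oo_prod (k := k) Finset.univ (fun j => u j ^ s j)
    (fun j _ => pow_ne_zero _ (hu j))] with ω h2 h3
  unfold mon
  rw [h3]
  exact Finset.sum_congr rfl fun j _ => h2 j

theorem mon_ne {t : ℕ} (u : Fin t → UL 𝒰 L) (hu : ∀ j, u j ≠ 0) (s : Fin t →₀ ℕ) :
    mon u s ≠ 0 := Finset.prod_ne_zero_iff.2 fun j _ => pow_ne_zero _ (hu j)

theorem mon_units {t : ℕ} (U : Fin t → (UL 𝒰 L)ˣ) (s : Fin t →₀ ℕ) :
    mon (fun j => (U j : UL 𝒰 L)) s = ((∏ j, U j ^ s j : (UL 𝒰 L)ˣ) : UL 𝒰 L) := by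
  unfold mon
  rw [Units.coe_prod]
  exact Finset.prod_congr rfl fun j _ => (Units.val_pow_eq_pow_val _ _).symm

theorem mon_ratio {t : ℕ} (U : Fin t → (UL 𝒰 L)ˣ) (s s' : Fin t →₀ ℕ) :
    mon (fun j => (U j : UL 𝒰 L)) s / mon (fun j => (U j : UL 𝒰 L)) s' =
      ((∏ j, U j ^ ((s j : ℤ) - s' j) : (UL 𝒰 L)ˣ) : UL 𝒰 L) := by
  rw [mon_units, mon_units, ← Units.val_div_eq_div_val, ← Finset.prod_div_distrib]
  congr 1
  refine Finset.prod_congr rfl fun j _ => ?_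
  rw [zpow_sub, zpow_natCast, zpow_natCast, div_eq_mul_inv]

/-- multiplicatively independent units modulo small elements are algebraically independent -/
theorem algIndep {t : ℕ} (U : Fin t → (UL 𝒰 L)ˣ) (hU : ∀ j, LU Δ (U j : UL 𝒰 L))
    (h : ∀ ν : Fin t → ℤ, ((∏ j, U j ^ ν j : (UL 𝒰 L)ˣ) : UL 𝒰 L) ∈ Δ.E → ν = 0) :
    AlgebraicIndependent Δ.E (fun j => (U j : UL 𝒰 L)) := by
  classical
  rw [algebraicIndependent_iff]
  intro φ hφ
  by_contra hne
  obtain ⟨s0, hs0⟩ := MvPolynomial.support_nonempty.2 hne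
  set u : Fin t → UL 𝒰 L := fun j => (U j : UL 𝒰 L) with hu_def
  have hu0 : ∀ j, u j ≠ 0 := fun j => (U j).ne_zero
  obtain ⟨B0, hB0⟩ := bound Δ u hU
  have hord : ∀ s : Fin t →₀ ℕ, ∀ᶠ i in (𝒰 : Filter I), ∀ P : Place k (L i), P ∉ Ss u i →
      P.ord (rep (mon u s) i) = 0 := by
    intro s
    filter_upwards [ev_iff.1 (oo_mon (k := k) u hu0 s)] with i h1 P hP
    have h2 : oo (mon u s) (⟨i, P⟩ : Om k L) = P.ord (rep (mon u s) i) := rfl
    rw [← h2, h1 P]
    refine Finset.sum_eq_zero fun j _ => ?_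
    have h3 : ¬ ∃ j, P.ord (rep (u j) i) ≠ 0 := fun hh => hP ((mem_Ss u i P).2 hh)
    have h4 : oo (u j) (⟨i, P⟩ : Om k L) = 0 := by
      by_contra h5
      exact h3 ⟨j, h5⟩
    rw [h4, mul_zero]
  have key := uindep (k := k) (F := F) (fun i => Ss u i) Δ.hE hB0
    (J := {s // s ∈ φ.support.erase s0}) (fun s => rep (mon u s.1)) (rep (mon u s0))
    (fun s => by rw [um_rep]; exact mon_ne u hu0 _) (by rw [um_rep]; exact mon_ne u hu0 _)
    (by
      have h1 : ∀ᶠ i in (𝒰 : Filter I), ∀ s : {s // s ∈ φ.support.erase s0},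
          ∀ P : Place k (L i), P ∉ Ss u i → P.ord (rep (mon u s.1) i) = 0 :=
        eventually_all.2 fun s => hord s.1
      filter_upwards [h1, hord s0] with i h2 h3 P hP
      exact ⟨h3 P hP, fun s => h2 s P hP⟩)
    (by
      rintro ⟨s, hs⟩
      rw [um_rep, um_rep]
      intro hE
      rw [mon_ratio U s0 s] at hE
      have h2 := h _ hE
      apply Finset.ne_of_mem_erase hs
      ext j
      have h3 := congrFun h2 j
      simp only [Pi.zero_apply] at h3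
      omega)
  apply key
  rw [um_rep]
  have h1 : (fun s : {s // s ∈ φ.support.erase s0} => um 𝒰 (rep (mon u s.1))) =
      fun s => mon u s.1 := by
    funext s
    rw [um_rep]
  rw [h1]
  -- solve the relation
  rw [MvPolynomial.aeval_def, MvPolynomial.eval₂_eq', ← Finset.add_sum_erase _ _ hs0] at hφ
  have hc : MvPolynomial.coeff s0 φ ≠ 0 := MvPolynomial.mem_support_iff.1 hs0
  have hc' : algebraMap Δ.E (UL 𝒰 L) (MvPolynomial.coeff s0 φ) ≠ 0 := by
    rw [Ne, map_eq_zero]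
    exact hc
  have h2 : mon u s0 = ∑ s ∈ φ.support.erase s0,
      (-(MvPolynomial.coeff s0 φ)⁻¹ * MvPolynomial.coeff s φ) • mon u s := by
    have h3 : algebraMap Δ.E (UL 𝒰 L) (MvPolynomial.coeff s0 φ) * mon u s0 =
        -∑ s ∈ φ.support.erase s0, algebraMap Δ.E (UL 𝒰 L) (MvPolynomial.coeff s φ) * mon u s := by
      rw [eq_neg_iff_add_eq_zero, ← hφ]
      rfl
    have h4 : ∀ s ∈ φ.support.erase s0,
        (-(MvPolynomial.coeff s0 φ)⁻¹ * MvPolynomial.coeff s φ) • mon u s =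
          -(algebraMap Δ.E (UL 𝒰 L) (MvPolynomial.coeff s0 φ))⁻¹ *
            (algebraMap Δ.E (UL 𝒰 L) (MvPolynomial.coeff s φ) * mon u s) := by
      intro s _
      rw [Algebra.smul_def, map_mul, map_neg, map_inv₀]
      ring
    rw [Finset.sum_congr rfl h4, ← Finset.mul_sum, neg_mul, ← mul_neg, ← h3, inv_mul_cancel_left₀ hc']
  rw [h2]
  refine Submodule.sum_mem _ fun s hs => Submodule.smul_mem _ _ (Submodule.subset_span ⟨⟨s, hs⟩, rfl⟩)

theorem mb : S_MB Δ := by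
  intro r z hz
  obtain ⟨t, Q, M, h1, h2⟩ := exists_basis (fun l => Units.mk0 (z l) (hz l).1) (eG Δ) (by
    intro x n hn hx
    have hx' : ((x ^ n : (UL 𝒰 L)ˣ) : UL 𝒰 L) ∈ Δ.E := hx
    rw [Units.val_pow_eq_pow_val] at hx'
    exact Δ.hE.root _ n hn hx')
  have hmem : ∀ j : Fin t, (∏ l, (Units.mk0 (z l) (hz l).1) ^ Q j l) ∈ luG Δ := fun j =>
    (luG Δ).prod_mem fun l _ => (luG Δ).zpow_mem (show Units.mk0 (z l) (hz l).1 ∈ luG Δ from hz l) _
  refine ⟨t, fun j => ((∏ l, (Units.mk0 (z l) (hz l).1) ^ Q j l : (UL 𝒰 L)ˣ) : UL 𝒰 L),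
    ⟨fun j => hmem j, algIndep Δ _ (fun j => hmem j) fun ν hν => h2 ν hν⟩, fun l => ?_⟩
  refine ⟨_, h1 l, Units.ne_zero _, M l, ?_⟩
  have h3 : (Units.mk0 (z l) (hz l).1) =
      (Units.mk0 (z l) (hz l).1) / (∏ j, (∏ l, (Units.mk0 (z l) (hz l).1) ^ Q j l) ^ M l j) *
        ∏ j, (∏ l, (Units.mk0 (z l) (hz l).1) ^ Q j l) ^ M l j := by
    rw [div_mul_cancel]
  have h4 := congrArg (fun x : (UL 𝒰 L)ˣ => (x : UL 𝒰 L)) h3
  simp only [Units.val_mul, Units.val_mk0] at h4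
  rw [Units.coe_prod] at h4
  refine h4.trans ?_
  congr 1
  exact Finset.prod_congr rfl fun j _ => Units.val_zpow_eq_zpow_val _ _

end Pool.Agent.Y664.FG
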